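import Mathlib

set_option autoImplicit false

namespace Pool.Agent.Results.MP_b44554_al.Present

open FirstOrder FirstOrder.Language

/-- A strong Maltsev condition: finitely many operation symbols, variables `x_1,…,x_n`, finitely many
identities. -/
structure SMC where
  L : FirstOrder.Language.{0, 0}
  fin : Finite (Σ m, L.Functions m)
  n : ℕ
  ids : List (L.Term (Fin n) × L.Term (Fin n))

/-- The algebra `A` (of signature `L`) satisfies `S` on `F ⊆ A^n`: the symbols are interpreted by term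
operations of `A`. -/
def SatOn (S : SMC) (L : FirstOrder.Language.{0, 0}) (A : Type) [L.Structure A] (F : Set (Fin S.n → A)) : Prop :=
  ∃ c : ∀ {m : ℕ}, S.L.Functions m → L.Term (Fin m), ∀ x ∈ F, ∀ e ∈ S.ids,
    (e.1.substFunc c).realize x = (e.2.substFunc c).realize x

/-- The `k`-local-global property. -/
def KLG (k : ℕ) (S : SMC) : Prop :=
  ∀ (L : FirstOrder.Language.{0, 0}) (A : Type) [L.Structure A] [Nonempty A], (k : Cardinal) ≤ Cardinal.mk A ^ S.n →
    (∀ F : Finset (Fin S.n → A), F.card = k → SatOn S L A F) → ∀ F : Finset (Fin S.n → A), SatOn S L A F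

/-- The local-global property. -/
def LG (S : SMC) : Prop := ∃ k, 1 ≤ k ∧ KLG k S

/-- Equivalence of strong Maltsev conditions over all algebras. -/
def Equivalent (S T : SMC) : Prop :=
  ∀ (L : FirstOrder.Language.{0, 0}) (A : Type) [L.Structure A] [Nonempty A],
    SatOn S L A Set.univ ↔ SatOn T L A Set.univ

inductive Un (I : Type) : ℕ → Type | mk (i : I) : Un I 1
def lang (I : Type) : FirstOrder.Language.{0, 0} := ⟨Un I, fun _ => Empty⟩
def tt (u : (lang Unit).Term (Fin 2)) : (lang Unit).Term (Fin 2) := Term.func (Un.mk ()) fun _ => u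
lemma fin : Finite (Σ m, (lang Unit).Functions m) :=
  Finite.of_surjective (fun _ : Unit => ⟨1, Un.mk ()⟩) (by rintro ⟨_, ⟨⟩⟩; exact ⟨(), rfl⟩)

abbrev S1 : SMC := ⟨_, fin, 2, [(tt (.var 0), tt (.var 1))]⟩
abbrev S2 : SMC := ⟨_, fin, 2, [(tt (.var 0), tt (.var 1)), (tt (tt (.var 0)), tt (.var 0))]⟩

def ev {L : FirstOrder.Language.{0, 0}} {A : Type} [L.Structure A] (c : L.Term (Fin 1)) (a : A) : A :=
  c.realize fun _ => a

section
variable {L : FirstOrder.Language.{0, 0}} {A : Type} [L.Structure A]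

lemma rt (c : ∀ {m : ℕ}, (lang Unit).Functions m → L.Term (Fin m)) (x : Fin 2 → A) (u : (lang Unit).Term (Fin 2)) :
    ((tt u).substFunc c).realize x = ev (c (Un.mk ())) ((u.substFunc c).realize x) := Term.realize_subst

lemma sat1 {F : Set (Fin 2 → A)} : SatOn S1 L A F ↔ ∃ c : L.Term (Fin 1), ∀ x ∈ F, ev c (x 0) = ev c (x 1) := by
  simp only [SatOn, List.forall_mem_cons, List.not_mem_nil, false_imp_iff, implies_true, and_true, rt]
  exact ⟨fun ⟨c, h⟩ => ⟨c (Un.mk ()), h⟩, fun ⟨c, h⟩ => ⟨fun f => match f with | .mk _ => c, h⟩⟩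

lemma sat2 {F : Set (Fin 2 → A)} : SatOn S2 L A F ↔ ∃ c : L.Term (Fin 1), ∀ x ∈ F,
    ev c (x 0) = ev c (x 1) ∧ ev c (ev c (x 0)) = ev c (x 0) := by
  simp only [SatOn, List.forall_mem_cons, List.not_mem_nil, false_imp_iff, implies_true, and_true, rt]
  exact ⟨fun ⟨c, h⟩ => ⟨c (Un.mk ()), h⟩, fun ⟨c, h⟩ => ⟨fun f => match f with | .mk _ => c, h⟩⟩
end

inductive A
  | gen (i : ℕ)
  | cons (a b : A)
  | c' (s : A)
  | ap' (s a : A)

def enc : List A → A
  | [] => .gen 0
  | a :: l => .cons a (enc l)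

lemma enc_inj : ∀ S T : List A, enc S = enc T → S = T
  | [], [], _ => rfl
  | [], _ :: _, h => nomatch h
  | _ :: _, [], h => nomatch h
  | _ :: l, _ :: m, h => by rw [(A.cons.inj h).1, enc_inj l m (A.cons.inj h).2]

lemma enc_size {a : A} : ∀ {S : List A}, a ∈ S → sizeOf a < sizeOf (enc S)
  | _ :: _, h => by
    rcases List.mem_cons.1 h with rfl | h
    · simp [enc]; omega
    · have := enc_size h; simp [enc]; omega

def A.c (S : List A) : A := .c' (enc S)
def A.ap (S : List A) (a : A) : A := .ap' (enc S) a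
lemma c_inj {S T : List A} (h : A.c S = A.c T) : S = T := enc_inj _ _ (A.c'.inj h)

open Classical in
noncomputable def op (S : List A) (a : A) : A := if a ∈ S ∨ a = .c S then .c S else .ap S a

lemma op_size (S : List A) (a : A) : sizeOf a < sizeOf (op S a) ∨ a = .c S := by
  unfold op
  split_ifs with h
  · exact h.imp_left fun h => (enc_size h).trans (by simp [A.c])
  · exact Or.inl (by simp [A.ap])

abbrev LK (k : ℕ) := lang {S : List A // S.length ≤ 2 * k}

noncomputable instance (k : ℕ) : (LK k).Structure A :=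
  ⟨fun f x => match f, x with | .mk S, x => op S.1 (x 0), fun r => r.elim⟩

lemma ev_size {k : ℕ} (t : (LK k).Term (Fin 1)) (a : A) : sizeOf a ≤ sizeOf (ev t a) := by
  induction t with
  | var => exact le_rfl
  | func f ts ih =>
    obtain ⟨S⟩ := f
    refine (ih 0).trans ((op_size S.1 _).elim le_of_lt fun h => le_of_eq ?_)
    show _ = sizeOf (op S.1 (ev (ts 0) a))
    rw [op, if_pos (Or.inr h), h]

lemma fix {k : ℕ} {t : (LK k).Term (Fin 1)} {S : List A} {b : A} (h : op S (ev t b) = b) :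
    b = .c S ∧ ev t b = b := by
  have h1 := (op_size S (ev t b)).resolve_left (by rw [h]; exact (ev_size t b).not_gt)
  rw [op, if_pos (Or.inr h1)] at h
  exact ⟨h.symm, h1.trans h⟩

lemma back {k : ℕ} (t : (LK k).Term (Fin 1)) {S : List A} {a : A} (h : ev t (A.c S) = .c S)
    (h' : ev t a ∈ S ∨ ev t a = .c S) : a ∈ S ∨ a = .c S := by
  induction t with
  | var => exact h'
  | func f ts ih =>
    obtain ⟨T⟩ := f
    obtain ⟨h1, h2⟩ := fix (t := ts 0) h
    obtain rfl := c_inj h1
    refine ih 0 h2 (by_contra fun c => ?_)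
    change op T.1 (ev (ts 0) a) ∈ _ ∨ op T.1 (ev (ts 0) a) = _ at h'
    rw [op, if_neg c] at h'
    exact h'.elim (fun h => by have := enc_size h; simp [A.ap] at this; omega) nofun

lemma coll {k : ℕ} (t : (LK k).Term (Fin 1)) {a a' b : A} (h : ev t b = b) (h' : ev t a = ev t a') :
    a = a' ∨ ∃ S : List A, S.length ≤ 2 * k ∧ b = .c S ∧ (a' ∈ S ∨ a' = .c S) := by
  induction t with
  | var => exact Or.inl h'
  | func f ts ih =>
    obtain ⟨T⟩ := f
    obtain ⟨rfl, h2⟩ := fix (t := ts 0) h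
    change op T.1 (ev (ts 0) a) = op T.1 (ev (ts 0) a') at h'
    by_cases c : ev (ts 0) a' ∈ T.1 ∨ ev (ts 0) a' = .c T.1
    · exact Or.inr ⟨_, T.2, rfl, back _ h2 c⟩
    · rw [op, op, if_neg c] at h'
      split_ifs at h'
      · exact nomatch h'
      · exact ih 0 h2 (A.ap'.inj h').2

/-- Two equivalent strong Maltsev conditions, one with the local-global property and one without. -/
theorem result : ∃ S T : SMC, Equivalent S T ∧ LG S ∧ ¬ LG T := by
  classical
  refine ⟨S1, S2, fun L A _ _ => sat1.trans (Iff.trans ⟨fun ⟨c, h⟩ => ⟨c, fun x _ =>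
    ⟨h x trivial, h ![_, _] trivial⟩⟩, fun ⟨c, h⟩ => ⟨c, fun x hx => (h x hx).1⟩⟩ sat2.symm),
    ⟨1, le_rfl, fun L A _ _ _ h (F : Finset (Fin 2 → A)) => sat1.2 ?_⟩, fun ⟨k, _, h⟩ => ?_⟩
  · induction F using Finset.induction_on with
    | empty => exact ⟨.var 0, by simp⟩
    | insert y F _ ih =>
      obtain ⟨c, hc⟩ := ih
      obtain ⟨d, hd⟩ := sat1.1 (h {![ev c (y 0), ev c (y 1)]} rfl)
      refine ⟨d.subst fun _ => c, fun x hx => ?_⟩
      simp only [ev, Term.realize_subst]
      rcases Finset.mem_insert.1 hx with rfl | hx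
      · exact hd _ (Finset.mem_singleton_self _)
      · exact congrArg (ev d) (hc x hx)
  have gi : Function.Injective A.gen := fun _ _ => A.gen.inj
  have : Infinite A := Infinite.of_injective _ gi
  refine (sat2.1 (h (LK k) A ((Cardinal.natCast_lt_aleph0.le.trans (Cardinal.aleph0_le_mk A)).trans
    (le_self_pow₀ (Cardinal.one_le_iff_ne_zero.2 (Cardinal.mk_ne_zero A)) two_ne_zero))
    (fun (F : Finset (Fin 2 → A)) hF => sat2.2 ⟨Term.func (Un.mk ⟨F.toList.map (· 0) ++ F.toList.map (· 1), by simp [hF, two_mul]⟩)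
      fun _ => .var 0, fun x hx => ?_⟩) ((Finset.range (2 * k + 1)).image fun i => ![.gen 0, .gen (i + 1)]))).elim
      fun t ht => ?_
  rotate_left
  · have h1 := fun i hi => ht _ (Finset.mem_image_of_mem _ (Finset.mem_range.2 hi : i ∈ _))
    obtain ⟨S, s1, s2, -⟩ := (coll t (h1 0 (by omega)).2 (h1 0 (by omega)).1).resolve_left (by simp)
    have : (Finset.range (2 * k + 1)).image (fun i => A.gen (i + 1)) ⊆ S.toFinset := by
      intro a ha
      obtain ⟨i, hi, rfl⟩ := Finset.mem_image.1 ha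
      obtain ⟨T, -, t2, t3⟩ := (coll t (h1 0 (by omega)).2 (h1 i (Finset.mem_range.1 hi)).1).resolve_left (by simp)
      obtain rfl := c_inj (s2.symm.trans t2)
      simpa [A.c] using t3
    have := (Finset.card_le_card this).trans (List.toFinset_card_le S)
    rw [Finset.card_image_of_injective _ fun a b h => by simpa using h, Finset.card_range] at this
    omega
  · have a : ∀ S a, a ∈ S → op S a = .c S := fun S a h => if_pos (Or.inl h)
    show op _ (x 0) = op _ (x 1) ∧ op _ (op _ (x 0)) = op _ (x 0)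
    rw [a _ (x 0) (List.mem_append_left _ (List.mem_map.2 ⟨x, Finset.mem_toList.2 hx, rfl⟩)),
      a _ (x 1) (List.mem_append_right _ (List.mem_map.2 ⟨x, Finset.mem_toList.2 hx, rfl⟩))]
    exact ⟨rfl, if_pos (Or.inr rfl)⟩

end Pool.Agent.Results.MP_b44554_al.Present
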